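import Pool.Agent.Y738.PE.Stm3
import Pool.Agent.Y65.PE.Bound

/-! # E7a: the energy, crude bounds -/

set_option autoImplicit false

open scoped BigOperators ComplexConjugate Classical Topology

noncomputable section

namespace Pool.Agent.Y331.PE

open Pool.Agent.Y738.PE

theorem sum_eq {d q L : ℕ} [NeZero L] (h : BConf d q → BConf d q → ℂ) (Ψ : Conf d L → ℂ) :
    (∑ s, conj (Ψ s) * ham h L Ψ s) = ∑ v : Site L, expec Ψ v h := by
  unfold ham expec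
  rw [Finset.sum_comm]
  refine Finset.sum_congr rfl fun s _ => ?_
  rw [Finset.mul_sum]
  refine Finset.sum_congr rfl fun v _ => ?_
  rw [Finset.mul_sum]
  refine Finset.sum_congr rfl fun τ _ => ?_
  rw [mul_assoc]

theorem card_site (L : ℕ) [NeZero L] : ((Fintype.card (Site L) : ℕ) : ℝ) = (L : ℝ) ^ 2 := by
  rw [Fintype.card_prod, ZMod.card]
  push_cast
  ring

/-- a matrix whose entries have total absolute value at most one is a contraction -/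
theorem contr_of_entry {T : Type} [Fintype T] (B : T → T → ℂ)
    (hB : ∑ σ, ∑ τ, ‖B σ τ‖ ≤ 1) : Contr B := by
  intro f
  have h0 : ∀ σ τ, ‖B σ τ‖ ≤ 1 := by
    intro σ τ
    have h1 : ‖B σ τ‖ ≤ ∑ τ, ‖B σ τ‖ :=
      Finset.single_le_sum (f := fun τ => ‖B σ τ‖) (fun _ _ => norm_nonneg _) (Finset.mem_univ τ)
    have h2 : ∑ τ, ‖B σ τ‖ ≤ ∑ σ, ∑ τ, ‖B σ τ‖ :=
      Finset.single_le_sum (f := fun σ => ∑ τ, ‖B σ τ‖)
        (fun _ _ => Finset.sum_nonneg fun _ _ => norm_nonneg _) (Finset.mem_univ σ)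
    linarith
  have h1 : ∀ σ, ‖∑ τ, B σ τ * f τ‖ ^ 2 ≤ (∑ τ, ‖B σ τ‖) * nrm f := by
    intro σ
    have e1 : ‖∑ τ, B σ τ * f τ‖ ≤ ∑ τ, ‖B σ τ‖ * ‖f τ‖ :=
      (norm_sum_le _ _).trans (le_of_eq (Finset.sum_congr rfl fun τ _ => norm_mul _ _))
    have e2 : (∑ τ, ‖B σ τ‖ * ‖f τ‖) ^ 2 ≤ (∑ τ, ‖B σ τ‖ ^ 2) * ∑ τ, ‖f τ‖ ^ 2 :=
      Finset.sum_mul_sq_le_sq_mul_sq _ _ _
    have e3 : ∑ τ, ‖B σ τ‖ ^ 2 ≤ ∑ τ, ‖B σ τ‖ := Finset.sum_le_sum fun τ _ => by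
      nlinarith [h0 σ τ, norm_nonneg (B σ τ)]
    have e4 : 0 ≤ ∑ τ, ‖f τ‖ ^ 2 := Finset.sum_nonneg fun _ _ => by positivity
    calc ‖∑ τ, B σ τ * f τ‖ ^ 2 ≤ (∑ τ, ‖B σ τ‖ * ‖f τ‖) ^ 2 := by gcongr
      _ ≤ (∑ τ, ‖B σ τ‖ ^ 2) * ∑ τ, ‖f τ‖ ^ 2 := e2
      _ ≤ (∑ τ, ‖B σ τ‖) * ∑ τ, ‖f τ‖ ^ 2 := mul_le_mul_of_nonneg_right e3 e4
      _ = _ := rfl
  have h2 : 0 ≤ nrm f := Finset.sum_nonneg fun _ _ => by positivity
  calc nrm (fun σ => ∑ τ, B σ τ * f τ) = ∑ σ, ‖∑ τ, B σ τ * f τ‖ ^ 2 := rfl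
    _ ≤ ∑ σ, (∑ τ, ‖B σ τ‖) * nrm f := Finset.sum_le_sum fun σ _ => h1 σ
    _ = (∑ σ, ∑ τ, ‖B σ τ‖) * nrm f := by rw [Finset.sum_mul]
    _ ≤ 1 * nrm f := mul_le_mul_of_nonneg_right hB h2
    _ = nrm f := one_mul _

theorem expec_smul {d r L : ℕ} [NeZero L] (Ψ : Conf d L → ℂ) (v : Site L)
    (B : BConf d r → BConf d r → ℂ) (c : ℂ) :
    expec Ψ v (fun σ τ => c * B σ τ) = c * expec Ψ v B := by
  unfold expec
  rw [Finset.mul_sum]
  refine Finset.sum_congr rfl fun s _ => ?_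
  rw [Finset.mul_sum]
  refine Finset.sum_congr rfl fun τ _ => ?_
  ring

theorem crude {d q L : ℕ} [NeZero L] (hq : q ≤ L) (h : BConf d q → BConf d q → ℂ)
    (Ψ : Conf d L → ℂ) (v : Site L) : ‖expec Ψ v h‖ ≤ entrySum h * nrm Ψ := by
  have hc0 : 0 ≤ entrySum h := Finset.sum_nonneg fun _ _ => Finset.sum_nonneg fun _ _ =>
    norm_nonneg _
  rcases hc0.eq_or_lt with hc | hc
  · have h0 : ∀ σ τ, h σ τ = 0 := by
      intro σ τ
      have h1 : ‖h σ τ‖ ≤ ∑ τ, ‖h σ τ‖ :=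
        Finset.single_le_sum (f := fun τ => ‖h σ τ‖) (fun _ _ => norm_nonneg _)
          (Finset.mem_univ τ)
      have h2 : ∑ τ, ‖h σ τ‖ ≤ ∑ σ, ∑ τ, ‖h σ τ‖ :=
        Finset.single_le_sum (f := fun σ => ∑ τ, ‖h σ τ‖)
          (fun _ _ => Finset.sum_nonneg fun _ _ => norm_nonneg _) (Finset.mem_univ σ)
      have h3 : entrySum h = ∑ σ, ∑ τ, ‖h σ τ‖ := rfl
      have h4 : ‖h σ τ‖ ≤ 0 := by linarith
      exact norm_le_zero_iff.1 h4
    have h1 : expec Ψ v h = 0 := by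
      unfold expec
      refine Finset.sum_eq_zero fun s _ => Finset.sum_eq_zero fun τ _ => ?_
      rw [h0, mul_zero, zero_mul]
    rw [h1, ← hc, norm_zero, zero_mul]
  · have hcne : ((entrySum h : ℝ) : ℂ) ≠ 0 := Complex.ofReal_ne_zero.2 hc.ne'
    have h1 : Contr (fun σ τ => (((entrySum h : ℝ) : ℂ))⁻¹ * h σ τ) := by
      apply contr_of_entry
      have e1 : ∀ σ τ, ‖(((entrySum h : ℝ) : ℂ))⁻¹ * h σ τ‖ = (entrySum h)⁻¹ * ‖h σ τ‖ := by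
        intro σ τ
        rw [norm_mul, norm_inv, Complex.norm_real, Real.norm_of_nonneg hc0]
      have e2 : ∑ σ, ∑ τ, ‖(((entrySum h : ℝ) : ℂ))⁻¹ * h σ τ‖ = (entrySum h)⁻¹ * entrySum h := by
        unfold entrySum at e1 ⊢
        rw [Finset.mul_sum]
        refine Finset.sum_congr rfl fun σ _ => ?_
        rw [Finset.mul_sum]
        exact Finset.sum_congr rfl fun τ _ => e1 σ τ
      rw [e2, inv_mul_cancel₀ hc.ne']
    have h2 := Pool.Agent.Y65.PE.bound d L q hq Ψ v _ h1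
    rw [expec_smul, norm_mul, norm_inv, Complex.norm_real, Real.norm_of_nonneg hc0,
      inv_mul_le_iff₀ hc] at h2
    exact h2

theorem t_EnergyA : Pool.Agent.Y738.PE.StmEnergyA := by
  refine ⟨?_, ?_, ?_⟩
  · intro d q L _ h Ψ hTI
    unfold en
    rw [sum_eq, Finset.sum_congr rfl fun v _ => hTI v, Finset.sum_const, Finset.card_univ,
      nsmul_eq_mul, ← card_site]
    have e : (((Fintype.card (Site L) : ℕ) : ℝ) : ℂ) = ((Fintype.card (Site L) : ℕ) : ℂ) := by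
      push_cast
      rfl
    rw [← e, Complex.re_ofReal_mul]
  · intro d q L _ hq h Ψ v
    exact crude hq h Ψ v
  · intro d q L _ hq h Ψ
    unfold en
    rw [sum_eq]
    calc |(∑ v : Site L, expec Ψ v h).re| ≤ ‖∑ v : Site L, expec Ψ v h‖ := Complex.abs_re_le_norm _
      _ ≤ ∑ v : Site L, ‖expec Ψ v h‖ := norm_sum_le _ _
      _ ≤ ∑ _v : Site L, entrySum h * nrm Ψ := Finset.sum_le_sum fun v _ => crude hq h Ψ v
      _ = (L : ℝ) ^ 2 * (entrySum h * nrm Ψ) := by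
        rw [Finset.sum_const, Finset.card_univ, nsmul_eq_mul, card_site]

end Pool.Agent.Y331.PE
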